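import Mathlib
import Pool.Agent.H92.SS2

open Set H92.SS

namespace Pool.Agent.Results.MP_a7d15e_an.Bidual

/-- the slice `S(φ, α)` of the closed unit ball -/
def slice {X : Type} [NormedAddCommGroup X] [NormedSpace ℝ X] (φ : StrongDual ℝ X) (α : ℝ) :
    Set X := {x | ‖x‖ ≤ 1 ∧ 1 - α < φ x}

/-- the symmetric strong diameter 2 property -/
def SSD2P (X : Type) [NormedAddCommGroup X] [NormedSpace ℝ X] : Prop :=
  ∀ (n : ℕ) (φ : Fin n → StrongDual ℝ X) (α : Fin n → ℝ), (∀ i, ‖φ i‖ = 1) → (∀ i, 0 < α i) →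
    ∀ ε > 0, ∃ (x : Fin n → X) (y : X), ‖y‖ ≤ 1 ∧ 1 - ε < ‖y‖ ∧ ∀ i, x i ∈ slice (φ i) (α i) ∧
      x i + y ∈ slice (φ i) (α i) ∧ x i - y ∈ slice (φ i) (α i)

/-- the unit ball has slices of arbitrarily small diameter -/
def SmallSlices (X : Type) [NormedAddCommGroup X] [NormedSpace ℝ X] : Prop :=
  ∀ ε > 0, ∃ (φ : StrongDual ℝ X) (α : ℝ), ‖φ‖ = 1 ∧ 0 < α ∧
    ∀ x ∈ slice φ α, ∀ y ∈ slice φ α, ‖x - y‖ < ε

lemma not_ssd {X : Type} [NormedAddCommGroup X] [NormedSpace ℝ X] (h : SmallSlices X) :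
    ¬ SSD2P X := fun H => by
  obtain ⟨φ, α, h1, h2, h3⟩ := h 1 one_pos
  obtain ⟨x, y, -, a, b⟩ := H 1 (fun _ => φ) (fun _ => α) (fun _ => h1) (fun _ => h2) (1 / 2)
    (by norm_num)
  have := h3 _ (b 0).2.1 _ (b 0).2.2
  rw [add_sub_sub_cancel, ← two_smul ℝ y, norm_smul, Real.norm_two] at this
  linarith

lemma small {W : Type} [NormedAddCommGroup W] [NormedSpace ℝ W] (p : W) (G : StrongDual ℝ W)
    (h : ‖G‖ = 1) (h' : ∀ Ψ, ‖Ψ‖ ≤ 1 → ‖Ψ - p‖ ≤ 5 * (1 - G Ψ)) : SmallSlices W := fun ε hε =>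
  ⟨G, ε / 10, h, by positivity, fun x hx y hy => by
    have := norm_sub_le (x - p) (y - p)
    rw [sub_sub_sub_cancel_right] at this
    linarith [h' x hx.1, h' y hy.1, hx.2, hy.2]⟩

theorem result : ∃ (X : Type) (_ : NormedAddCommGroup X) (_ : NormedSpace ℝ X)
    (_ : CompleteSpace X), TopologicalSpace.SeparableSpace X ∧ SSD2P X ∧
      ¬ SSD2P (StrongDual ℝ (StrongDual ℝ X)) ∧ SmallSlices (StrongDual ℝ (StrongDual ℝ X)) := by
  obtain ⟨X, _, _, _, δ, y, h0, h1, h2, h3, h4⟩ := exists_space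
  have b (φ : StrongDual ℝ X) (x) (hx : ‖x‖ ≤ 1) : |φ x| ≤ ‖φ‖ := by
    simpa using φ.le_of_opNorm_le_of_le le_rfl hx
  have m (φ : StrongDual ℝ X) : Mart (fun s => φ (δ s)) fun n => φ (y n) := fun s e => by
    simpa using congrArg φ (h2 s e)
  obtain ⟨p, G, g1, g2⟩ := exposed (W := StrongDual ℝ X)
    (d := fun s => ContinuousLinearMap.apply ℝ ℝ (δ s)) (fun φ s => b φ _ (h1 s))
    (fun φ => ⟨⟨_, m φ⟩, _, fun s => b φ _ (h1 s)⟩) h3 h4
  refine ⟨X, _, _, inferInstance, h0, fun n φ α hφ hα ε hε => ?_, not_ssd (small p G g1 g2),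
    small p G g1 g2⟩
  have a (i) : ∃ s, 1 - α i / 2 < |φ i (δ s)| := by
    by_contra hc
    push Not at hc
    linarith [h3 _ _ hc, hφ i, hα i]
  choose s hs using a
  choose t t1 t2 using fun i => push (m (φ i)) (s i) (Finset.univ.sup fun i => (s i).length)
    (Finset.le_sup (f := fun i => (s i).length) (Finset.mem_univ i))
  set k := Finset.univ.sup fun i => (s i).length
  have c (u : N) (e) : ‖δ u + sg e • y u.length‖ ≤ 1 := by
    have := norm_add_le (δ ((e, true) :: u)) (δ ((e, false) :: u))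
    rw [h2, mul_smul, ← smul_add, norm_smul, Real.norm_two] at this
    linarith [h1 ((e, true) :: u), h1 ((e, false) :: u)]
  have c1 (u : N) (hu : u.length = k) : ‖δ u + y k‖ ≤ 1 := by simpa [sg, hu] using c u true
  have c2 (u : N) (hu : u.length = k) : ‖δ u - y k‖ ≤ 1 := by
    simpa [sg, hu, sub_eq_add_neg] using c u false
  have y1 : ‖y k‖ ≤ 1 := by
    have hu : (List.replicate k (true, true) : N).length = k := by simp
    have := norm_sub_le (δ (List.replicate k (true, true)) + y k)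
      (δ (List.replicate k (true, true)) - y k)
    rw [add_sub_sub_cancel, ← two_smul ℝ (y k), norm_smul, Real.norm_two] at this
    linarith [c1 _ hu, c2 _ hu]
  have y2 : 1 ≤ ‖y k‖ := by
    obtain ⟨z, a, z1, z2, z3⟩ := coord k
    obtain ⟨ψ, hψ⟩ := h4 z ⟨⟨a, z1⟩, 1, z3⟩
    have e1 := m ψ (List.replicate k (true, true)) true
    have e2 := z1 (List.replicate k (true, true)) true
    simp only [hψ, List.length_replicate, sg, if_true, z2] at e1 e2
    have := le_of_abs_le (ψ.le_of_opNorm_le_of_le (h3 ψ 1 fun s => by rw [hψ]; exact z3 s)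
      (le_refl ‖y k‖))
    linarith
  have key (i) : ∃ x, ‖x‖ ≤ 1 ∧ ‖x + y k‖ ≤ 1 ∧ ‖x - y k‖ ≤ 1 ∧ 1 - α i / 2 < φ i x := by
    rcases lt_abs.1 ((hs i).trans_le (t2 i)) with h | h
    · exact ⟨_, h1 _, c1 _ (t1 i), c2 _ (t1 i), h⟩
    · refine ⟨-δ (t i), by simpa using h1 _, ?_, ?_, by simpa using h⟩
      · rw [neg_add_eq_sub, norm_sub_rev]; exact c2 _ (t1 i)
      · rw [← neg_add', norm_neg]; exact c1 _ (t1 i)
  choose x x1 x2 x3 x4 using key
  refine ⟨x, y k, y1, by linarith, fun i => ?_⟩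
  have b1 := le_of_abs_le (b (φ i) _ (x2 i))
  have b2 := le_of_abs_le (b (φ i) _ (x3 i))
  have := x4 i
  have := hα i
  rw [hφ] at b1 b2
  simp only [slice, mem_ofPred_eq, x1, x2, x3, true_and, map_add, map_sub] at b1 b2 ⊢
  exact ⟨by linarith, by linarith, by linarith⟩

end Pool.Agent.Results.MP_a7d15e_an.Bidual
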